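import Pool.Agent.GBS.Stmts
import Pool.Agent.Helper36_RF.Chr

/-! Row FSM of the squad GBS (MP_33f2b9_gt): joint smoothness of the metric and the connection. -/

noncomputable section

open scoped ContDiff Topology RealInnerProductSpace
set_option maxSynthPendingDepth 3
open Set MeasureTheory Matrix

namespace Pool.Agent.GBS.H29

open Pool.Agent.RF Pool.Agent.MVS Pool.Agent.GBS

theorem UZ_open {H : ℝ → E5 → Bil E5} (hH : Fam H) : IsOpen UZ :=
  isOpen_univ.prod (hH.cyl 0).metric.isOpen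

theorem fam_fderiv {H : ℝ → E5 → Bil E5} (hH : Fam H) {z : Z} (hz : z ∈ UZ) :
    fderiv ℝ (H z.1) z.2 =
      (fderiv ℝ (fun z : Z => H z.1 z.2) z).comp (ContinuousLinearMap.inr ℝ ℝ E5) := by
  have h1 : DifferentiableAt ℝ (fun z : Z => H z.1 z.2) z :=
    ((hH.smooth z hz).contDiffAt ((UZ_open hH).mem_nhds hz)).differentiableAt (by simp)
  have h2 : HasFDerivAt (fun y : E5 => ((z.1, y) : Z)) (ContinuousLinearMap.inr ℝ ℝ E5) z.2 :=
    hasFDerivAt_prodMk_right z.1 z.2
  have h3 : HasFDerivAt (fun z : Z => H z.1 z.2) (fderiv ℝ (fun z : Z => H z.1 z.2) z)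
      ((fun y : E5 => ((z.1, y) : Z)) z.2) := h1.hasFDerivAt
  have h4 := h3.comp z.2 h2
  exact h4.fderiv

theorem fam_chris {H : ℝ → E5 → Bil E5} (hH : Fam H) (v w : E5) :
    ContDiffOn ℝ ∞ (fun z : Z => chris (H z.1) z.2 v w) UZ := by
  have hU := UZ_open hH
  have hD : ContDiffOn ℝ ∞ (fun z : Z =>
      (fderiv ℝ (fun z : Z => H z.1 z.2) z).comp (ContinuousLinearMap.inr ℝ ℝ E5)) UZ :=
    (hH.smooth.fderiv_of_isOpen hU (by simp)).clm_comp contDiffOn_const
  have hinv : ContDiffOn ℝ ∞ (fun z : Z => (H z.1 z.2).inverse) UZ := by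
    intro z hz
    exact (((hH.cyl z.1).metric.inv hz.2).contDiffAt_map_inverse).comp_contDiffWithinAt z
      (hH.smooth z hz)
  have h3 : ContDiffOn ℝ ∞ (fun z : Z =>
      (((ContinuousLinearMap.apply ℝ ℝ w).comp
        ((ContinuousLinearMap.apply ℝ (E5 →L[ℝ] ℝ) v).comp
          ((fderiv ℝ (fun z : Z => H z.1 z.2) z).comp (ContinuousLinearMap.inr ℝ ℝ E5)))) :
            E5 →L[ℝ] ℝ)) UZ := by
    apply ContDiffOn.clm_comp contDiffOn_const
    exact ContDiffOn.clm_comp contDiffOn_const hD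
  have hk : ContDiffOn ℝ ∞ (fun z : Z =>
      kos ((fderiv ℝ (fun z : Z => H z.1 z.2) z).comp (ContinuousLinearMap.inr ℝ ℝ E5)) v w)
      UZ := by
    unfold kos
    apply ContDiffOn.const_smul
    apply ContDiffOn.sub _ h3
    exact ((hD.clm_apply contDiffOn_const).clm_apply contDiffOn_const).add
      ((hD.clm_apply contDiffOn_const).clm_apply contDiffOn_const)
  refine (hinv.clm_apply hk).congr fun z hz => ?_
  unfold chris
  rw [fam_fderiv hH hz]

theorem fsm : FsmStatement := by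
  intro H hH
  refine ⟨fun a b => ?_, fun i a b => ?_⟩
  · change ContDiffOn ℝ ∞ (fun z : Z => H z.1 z.2 (eb a) (eb b)) UZ
    exact (hH.smooth.clm_apply contDiffOn_const).clm_apply contDiffOn_const
  · change ContDiffOn ℝ ∞ (fun z : Z => (chris (H z.1) z.2 (eb i) (eb b)) a) UZ
    exact (EuclideanSpace.proj a : E5 →L[ℝ] ℝ).contDiff.comp_contDiffOn
      (fam_chris hH (eb i) (eb b))

end Pool.Agent.GBS.H29
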